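import Pool.Agent.L7h98.SY.Stm

/-! Project SY, parts ONE, C4, A, RND. -/

namespace Pool.Agent.L7h36.SY

open scoped InnerProductSpace
open Module Classical Pool.Agent.L7h98.SY

variable {G : Subgroup (E3 ≃ₗᵢ[ℝ] E3)} {V H V' H' : Finset E3} {h w : E3} {kk : E3 → E3} {n : ℕ}

theorem T_sub {A : Finset E3} {y x : E3} (h : x ∈ T A y) : x ∈ A := (Finset.mem_filter.1 h).1

theorem mem_T {A : Finset E3} {y x : E3} : x ∈ T A y ↔ x ∈ A ∧ ⟪y, x⟫_ℝ = 1 := Finset.mem_filter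

theorem inner_g (g : E3 ≃ₗᵢ[ℝ] E3) (x y : E3) : ⟪g x, g y⟫_ℝ = ⟪x, y⟫_ℝ := g.inner_map_map x y

theorem T_image {A : Finset E3} (hA : ∀ g ∈ G, ∀ v ∈ A, g v ∈ A) {g : E3 ≃ₗᵢ[ℝ] E3} (hg : g ∈ G)
    (y : E3) : T A (g y) = (T A y).image g := by
  ext x
  rw [Finset.mem_image, mem_T]
  constructor
  · rintro ⟨h1, h2⟩
    have h3 : g (g⁻¹ x) = x := g.apply_symm_apply x
    refine ⟨g⁻¹ x, mem_T.2 ⟨hA _ (G.inv_mem hg) _ h1, ?_⟩, h3⟩
    rw [← inner_g g, h3]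
    exact h2
  · rintro ⟨z, hz, rfl⟩
    rw [mem_T] at hz
    exact ⟨hA g hg z hz.1, by rw [inner_g]; exact hz.2⟩

/-- the output of `S_ORB` -/
structure Orb (G : Subgroup (E3 ≃ₗᵢ[ℝ] E3)) (V H : Finset E3) (h : E3) (V' H' : Finset E3)
    (w : E3) (kk : E3 → E3) (n : ℕ) : Prop where
  gp : GP G V' H'
  sub : V ⊆ V'
  wmem : w ∈ V'
  new : ∀ v ∈ V', v ∉ V → ∃ g ∈ G, g w = v
  wnot : ∀ g ∈ G, g w ∉ V
  stab : ∀ g ∈ G, (g w = w ↔ g h = h)
  cV : V'.card = V.card + n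
  cH : H'.card = H.card + 2 * n
  cn : n * Nat.card {g : G // (g : E3 ≃ₗᵢ[ℝ] E3) h = h} = Nat.card G
  keep : ∀ h' ∈ H, (∀ g ∈ G, g h ≠ h') → h' ∈ H' ∧ T V' h' = T V h'
  k : ∀ x ∈ T V h, kk x ∈ H' ∧ kk x ∉ H ∧ T V' (kk x) = insert w ((T V h).erase x)
  Tw : T H' w = (T V h).image kk
  Tw3 : (T H' w).card = 3

theorem orb_of (ho : S_ORB) [Finite G] (gp : GP G V H) (hh : h ∈ H) (h3 : (T V h).card = 3) :
    ∃ (V' H' : Finset E3) (w : E3) (kk : E3 → E3) (n : ℕ), Orb G V H h V' H' w kk n := by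
  obtain ⟨V', H', w, kk, n, h1, h2, h3, h4, h5, h6, h7, h8, h9, h10, h11, h12, h13⟩ :=
    ho G V H gp h hh h3
  exact ⟨V', H', w, kk, n, ⟨h1, h2, h3, h4, h5, h6, h7, h8, h9, h10, h11, h12, h13⟩⟩

theorem Orb.w0 (o : Orb G V H h V' H' w kk n) : w ∉ V := by
  have := o.wnot 1 G.one_mem
  simpa using this

theorem Orb.key (o : Orb G V H h V' H' w kk n) (hV : ∀ g ∈ G, ∀ v ∈ V, g v ∈ V) {x x' : E3}
    (hx : x ∈ T V h) (hx' : x' ∈ T V h) {g : E3 ≃ₗᵢ[ℝ] E3} (hg : g ∈ G) (e : g (kk x) = kk x') :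
    g w = w ∧ g h = h ∧ ((T V h).erase x).image g = (T V h).erase x' := by
  have h1 := (o.k x' hx').2.2
  rw [← e, T_image o.gp.2.1 hg, (o.k x hx).2.2, Finset.image_insert] at h1
  have hw : g w = w := by
    have h2 : g w ∈ insert w ((T V h).erase x') := h1 ▸ Finset.mem_insert_self _ _
    rcases Finset.mem_insert.1 h2 with h3 | h3
    · exact h3
    · exact absurd (T_sub (Finset.mem_of_mem_erase h3)) (o.wnot g hg)
  refine ⟨hw, (o.stab g hg).1 hw, ?_⟩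
  rw [hw] at h1
  have hA : w ∉ ((T V h).erase x).image g := by
    intro h3
    obtain ⟨z, hz, e2⟩ := Finset.mem_image.1 h3
    exact o.w0 (e2 ▸ hV g hg z (T_sub (Finset.mem_of_mem_erase hz)))
  have hB : w ∉ (T V h).erase x' := fun h3 => o.w0 (T_sub (Finset.mem_of_mem_erase h3))
  rw [← Finset.erase_insert hA, h1, Finset.erase_insert hB]

theorem Orb.card_k (o : Orb G V H h V' H' w kk n) (h3 : (T V h).card = 3) {x : E3}
    (hx : x ∈ T V h) : (T V' (kk x)).card = 3 := by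
  rw [(o.k x hx).2.2, Finset.card_insert_of_notMem
    (fun h3 => o.w0 (T_sub (Finset.mem_of_mem_erase h3))), Finset.card_erase_of_mem hx, h3]

theorem card_free (hf : Free G h) : Nat.card {g : G // (g : E3 ≃ₗᵢ[ℝ] E3) h = h} = 1 := by
  rw [Nat.card_eq_one_iff_unique]
  exact ⟨⟨fun a b => Subtype.ext (Subtype.ext ((hf _ a.1.2 a.2).trans (hf _ b.1.2 b.2).symm))⟩,
    ⟨⟨1, by simp⟩⟩⟩

theorem Orb.n_free (o : Orb G V H h V' H' w kk n) (hf : Free G h) : n = Nat.card G := by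
  have := o.cn
  rwa [card_free hf, mul_one] at this

theorem gp_symm (gp : GP G V H) : GP G H V := ⟨gp.1.symm, gp.2.2, gp.2.1⟩

theorem Orb.free_k (o : Orb G V H h V' H' w kk n) (hV : ∀ g ∈ G, ∀ v ∈ V, g v ∈ V)
    (hf : Free G h) {x : E3} (hx : x ∈ T V h) : Free G (kk x) :=
  fun g hg e => hf g hg (o.key hV hx hx hg e).2.1

theorem Orb.ne_k (o : Orb G V H h V' H' w kk n) (hV : ∀ g ∈ G, ∀ v ∈ V, g v ∈ V)
    (hf : Free G h) {x x' : E3} (hx : x ∈ T V h) (hx' : x' ∈ T V h) (hne : x ≠ x') :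
    ∀ g ∈ G, g (kk x) ≠ kk x' := by
  intro g hg e
  obtain ⟨-, h1, h2⟩ := o.key hV hx hx' hg e
  have h3 := hf g hg h1
  subst h3
  have h4 : x ∈ (T V h).erase x' := Finset.mem_erase.2 ⟨hne, hx⟩
  rw [← h2] at h4
  obtain ⟨z, hz, e2⟩ := Finset.mem_image.1 h4
  have e3 : z = x := e2
  exact (Finset.mem_erase.1 hz).1 e3

theorem s_ONE (ho : S_ORB) : S_ONE := by
  intro G _ V H gp hft
  obtain ⟨h, hh, h3, hf⟩ := hft
  obtain ⟨V', H', w, kk, n, o⟩ := orb_of ho gp hh h3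
  have hn := o.n_free hf
  obtain ⟨x, hx⟩ : (T V h).Nonempty := by
    rw [← Finset.card_pos, h3]
    norm_num
  refine ⟨V', H', o.gp, by rw [o.cV, hn], by rw [o.cH, hn], ?_, ?_⟩
  · exact ⟨kk x, (o.k x hx).1, o.card_k h3 hx, o.free_k gp.2.1 hf hx⟩
  · exact ⟨w, o.wmem, o.Tw3, fun g hg e => hf g hg ((o.stab g hg).1 e)⟩

theorem s_C4 (ho : S_ORB) : S_C4 := by
  intro G _ V H gp hft
  obtain ⟨h, hh, h3, hf⟩ := hft
  obtain ⟨V1, H1, w, kk, n, o⟩ := orb_of ho gp hh h3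
  have hn := o.n_free hf
  obtain ⟨x1, x2, x3, n12, n13, n23, e3⟩ := Finset.card_eq_three.1 h3
  have m1 : x1 ∈ T V h := by rw [e3]; simp
  have m2 : x2 ∈ T V h := by rw [e3]; simp
  have m3 : x3 ∈ T V h := by rw [e3]; simp
  have hf1 := o.free_k gp.2.1 hf m1
  obtain ⟨V2, H2, w', kk', n', o'⟩ := orb_of ho o.gp (o.k x1 m1).1 (o.card_k h3 m1)
  have hn' := o'.n_free hf1
  have h3' := o.card_k h3 m1
  obtain ⟨y1, y2, y3, q12, -, -, e3'⟩ := Finset.card_eq_three.1 h3'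
  have l1 : y1 ∈ T V1 (kk x1) := by rw [e3']; simp
  have l2 : y2 ∈ T V1 (kk x1) := by rw [e3']; simp
  have k2 := o'.keep (kk x2) (o.k x2 m2).1 (o.ne_k gp.2.1 hf m1 m2 n12)
  have k3 := o'.keep (kk x3) (o.k x3 m3).1 (o.ne_k gp.2.1 hf m1 m3 n13)
  have hH : ∀ g ∈ G, ∀ a ∈ H1, ∀ b, b ∉ H1 → g a ≠ b := fun g hg a ha b hb e =>
    hb (e ▸ o.gp.2.2 g hg a ha)
  have hH' : ∀ g ∈ G, ∀ a ∈ H1, ∀ b, b ∉ H1 → g b ≠ a := fun g hg a ha b hb e => by
    apply hb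
    have e2 : b = g⁻¹ a := by
      rw [← e]
      exact (g.symm_apply_apply b).symm
    rw [e2]
    exact o.gp.2.2 _ (G.inv_mem hg) a ha
  have p2 := (o.k x2 m2).1
  have p3 := (o.k x3 m3).1
  have r1 := (o'.k y1 l1).2.1
  have r2 := (o'.k y2 l2).2.1
  have hcard : V2.card = V.card + 2 * Nat.card G := by rw [o'.cV, o.cV, hn, hn']; ring
  have hcard2 : H2.card = H.card + 4 * Nat.card G := by rw [o'.cH, o.cH, hn, hn']; ring
  refine ⟨V2, H2, o'.gp, hcard, hcard2, ![kk x2, kk x3, kk' y1, kk' y2], ?_, ?_⟩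
  · intro i
    fin_cases i
    · exact ⟨k2.1, by show (T V2 (kk x2)).card = 3; rw [k2.2]; exact o.card_k h3 m2,
        o.free_k gp.2.1 hf m2⟩
    · exact ⟨k3.1, by show (T V2 (kk x3)).card = 3; rw [k3.2]; exact o.card_k h3 m3,
        o.free_k gp.2.1 hf m3⟩
    · exact ⟨(o'.k y1 l1).1, o'.card_k h3' l1, o'.free_k o.gp.2.1 hf1 l1⟩
    · exact ⟨(o'.k y2 l2).1, o'.card_k h3' l2, o'.free_k o.gp.2.1 hf1 l2⟩
  · intro i j g hg e
    fin_cases i <;> fin_cases j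
    · rfl
    · exact absurd e (o.ne_k gp.2.1 hf m2 m3 n23 g hg)
    · exact absurd e (hH g hg _ p2 _ r1)
    · exact absurd e (hH g hg _ p2 _ r2)
    · exact absurd e (o.ne_k gp.2.1 hf m3 m2 n23.symm g hg)
    · rfl
    · exact absurd e (hH g hg _ p3 _ r1)
    · exact absurd e (hH g hg _ p3 _ r2)
    · exact absurd e (hH' g hg _ p2 _ r1)
    · exact absurd e (hH' g hg _ p3 _ r1)
    · rfl
    · exact absurd e (o'.ne_k o.gp.2.1 hf1 l1 l2 q12 g hg)
    · exact absurd e (hH' g hg _ p2 _ r2)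
    · exact absurd e (hH' g hg _ p3 _ r2)
    · exact absurd e (o'.ne_k o.gp.2.1 hf1 l2 l1 q12.symm g hg)
    · rfl

/-- an isometry which fixes the vertices of a facet is the identity -/
theorem fix_one (hb : S_BAS) (p : Pair V H) (hh : h ∈ H) {g : E3 ≃ₗᵢ[ℝ] E3}
    (hg : ∀ v ∈ T V h, g v = v) : g = 1 := by
  ext1 z
  show g z = z
  have h1 := (hb V H p).1 h hh (g z - z) (fun v hv => by
    rw [inner_sub_left, sub_eq_zero]
    conv_lhs => rw [← hg v hv]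
    exact inner_g g z v)
  exact sub_eq_zero.1 h1

theorem pow3 (g : E3 ≃ₗᵢ[ℝ] E3) (x : E3) : (g ^ 3) x = g (g (g x)) := by
  rw [pow_succ, pow_succ, pow_one]
  rfl

/-- `g` preserves the vertices of a facet which it fixes -/
theorem maps_T (gp : GP G V H) {g : E3 ≃ₗᵢ[ℝ] E3} (hg : g ∈ G) (e : g h = h) {x : E3}
    (hx : x ∈ T V h) : g x ∈ T V h := by
  have := T_image gp.2.1 hg h
  rw [e] at this
  rw [this]
  exact Finset.mem_image_of_mem _ hx

/-- the possible actions on a triangle -/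
theorem perm3 (hb : S_BAS) (gp : GP G V H) (hh : h ∈ H)
    (no3 : ∀ g ∈ G, g h = h → g ^ 3 = 1 → g = 1) {a b c : E3} (nab : a ≠ b) (nac : a ≠ c)
    (nbc : b ≠ c) (hT : T V h = {a, b, c}) {g : E3 ≃ₗᵢ[ℝ] E3} (hg : g ∈ G) (e : g h = h) :
    g = 1 ∨ (g a = a ∧ g b = c ∧ g c = b) ∨ (g b = b ∧ g a = c ∧ g c = a) ∨
      (g c = c ∧ g a = b ∧ g b = a) := by
  have ma : a ∈ T V h := by rw [hT]; simp
  have mb : b ∈ T V h := by rw [hT]; simp
  have mc : c ∈ T V h := by rw [hT]; simp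
  have ha := maps_T gp hg e ma
  have hb' := maps_T gp hg e mb
  have hc := maps_T gp hg e mc
  rw [hT] at ha hb' hc
  simp only [Finset.mem_insert, Finset.mem_singleton] at ha hb' hc
  have i1 : g a ≠ g b := fun h => nab (g.injective h)
  have i2 : g a ≠ g c := fun h => nac (g.injective h)
  have i3 : g b ≠ g c := fun h => nbc (g.injective h)
  have cyc : (∀ x ∈ T V h, g (g (g x)) = x) → g = 1 := by
    intro h1
    apply no3 g hg e
    exact fix_one hb gp.1 hh (fun v hv => by rw [pow3]; exact h1 v hv)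
  rcases ha with ha | ha | ha <;> rcases hb' with hb' | hb' | hb' <;> rcases hc with hc | hc | hc
  all_goals first
    | exact absurd (ha.trans hb'.symm) i1
    | exact absurd (ha.trans hc.symm) i2
    | exact absurd (hb'.trans hc.symm) i3
    | exact Or.inr (Or.inl ⟨ha, hb', hc⟩)
    | exact Or.inr (Or.inr (Or.inl ⟨hb', ha, hc⟩))
    | exact Or.inr (Or.inr (Or.inr ⟨hc, ha, hb'⟩))
    | (left
       apply fix_one hb gp.1 hh
       intro v hv
       rw [hT] at hv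
       simp only [Finset.mem_insert, Finset.mem_singleton] at hv
       rcases hv with rfl | rfl | rfl <;> assumption)
    | (left
       apply cyc
       intro v hv
       rw [hT] at hv
       simp only [Finset.mem_insert, Finset.mem_singleton] at hv
       rcases hv with rfl | rfl | rfl <;> simp only [ha, hb', hc])

end Pool.Agent.L7h36.SY
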