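import Pool.Agent.L7h36.SY.Orb

/-! Project SY, parts A, RND. -/

namespace Pool.Agent.L7h36.SY

open scoped InnerProductSpace
open Module Classical Pool.Agent.L7h98.SY

variable {G : Subgroup (E3 ≃ₗᵢ[ℝ] E3)} {V H V' H' : Finset E3} {h w : E3} {kk : E3 → E3} {n : ℕ}

theorem eq_of_agree (hb : S_BAS) (p : Pair V H) (hh : h ∈ H) {g g' : E3 ≃ₗᵢ[ℝ] E3}
    (hg : ∀ v ∈ T V h, g v = g' v) : g = g' := by
  have h1 : g'⁻¹ * g = 1 := by
    apply fix_one hb p hh
    intro v hv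
    show g'.symm (g v) = v
    rw [hg v hv]
    exact g'.symm_apply_apply v
  exact (inv_mul_eq_one.1 h1).symm

theorem card_two {ρ : E3 ≃ₗᵢ[ℝ] E3} (hρ : ρ ∈ G) (eρ : ρ h = h) (nρ : ρ ≠ 1)
    (two : ∀ g ∈ G, g h = h → g = 1 ∨ g = ρ) :
    Nat.card {g : G // (g : E3 ≃ₗᵢ[ℝ] E3) h = h} = 2 := by
  rw [Nat.card_eq_two_iff]
  refine ⟨⟨1, by simp⟩, ⟨⟨ρ, hρ⟩, eρ⟩, ?_, ?_⟩
  · intro e
    apply nρ
    exact (congrArg (fun t : {g : G // (g : E3 ≃ₗᵢ[ℝ] E3) h = h} => (t.1 : E3 ≃ₗᵢ[ℝ] E3)) e).symm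
  · apply Set.eq_univ_of_forall
    rintro ⟨⟨g, hg⟩, e⟩
    rcases two g hg e with rfl | rfl
    · left
      rfl
    · right
      rfl

theorem s_A (ho : S_ORB) (hb : S_BAS) : S_A := by
  intro G _ V H gp hyp
  obtain ⟨h, hh, h3, no3⟩ := hyp
  by_cases hf : Free G h
  · exact ⟨0, V, H, gp, by simp, by simp, h, hh, h3, hf⟩
  unfold Pool.Agent.L7h98.SY.Free at hf
  push Not at hf
  obtain ⟨ρ, hρ, eρ, nρ⟩ := hf
  obtain ⟨a, b, c, nab, nac, nbc, hT, ra, rb, rc⟩ : ∃ a b c : E3, a ≠ b ∧ a ≠ c ∧ b ≠ c ∧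
      T V h = {a, b, c} ∧ ρ a = a ∧ ρ b = c ∧ ρ c = b := by
    obtain ⟨a, b, c, nab, nac, nbc, hT⟩ := Finset.card_eq_three.1 h3
    rcases perm3 hb gp hh no3 nab nac nbc hT hρ eρ with h1 | ⟨h1, h2, h3⟩ | ⟨h1, h2, h3⟩ |
      ⟨h1, h2, h3⟩
    · exact absurd h1 nρ
    · exact ⟨a, b, c, nab, nac, nbc, hT, h1, h2, h3⟩
    · exact ⟨b, a, c, nab.symm, nbc, nac, by rw [hT]; ext; simp; tauto, h1, h2, h3⟩
    · exact ⟨c, a, b, nac.symm, nbc.symm, nab, by rw [hT]; ext; simp; tauto, h1, h2, h3⟩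
  have two : ∀ g ∈ G, g h = h → g = 1 ∨ g = ρ := by
    intro g hg e
    have hgρ : g * ρ ∈ G := G.mul_mem hg hρ
    have egρ : (g * ρ) h = h := by
      show g (ρ h) = h
      rw [eρ, e]
    have v1 : (g * ρ) a = g a := by show g (ρ a) = _; rw [ra]
    have v2 : (g * ρ) b = g c := by show g (ρ b) = _; rw [rb]
    have v3 : (g * ρ) c = g b := by show g (ρ c) = _; rw [rc]
    rcases perm3 hb gp hh no3 nab nac nbc hT hg e with h1 | ⟨h1, h2, h3⟩ | ⟨h1, h2, h3⟩ |
      ⟨h1, h2, h3⟩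
    · exact Or.inl h1
    · right
      apply eq_of_agree hb gp.1 hh
      intro v hv
      rw [hT] at hv
      simp only [Finset.mem_insert, Finset.mem_singleton] at hv
      rcases hv with rfl | rfl | rfl
      · rw [h1, ra]
      · rw [h2, rb]
      · rw [h3, rc]
    · exfalso
      rw [h2] at v1
      rw [h3] at v2
      rw [h1] at v3
      rcases perm3 hb gp hh no3 nab nac nbc hT hgρ egρ with k1 | ⟨k1, -, -⟩ | ⟨k1, -, -⟩ |
        ⟨k1, -, -⟩
      · rw [k1] at v1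
        exact nac v1
      · exact nac (k1.symm.trans v1)
      · exact nab (v2.symm.trans k1)
      · exact nbc (v3.symm.trans k1)
    · exfalso
      rw [h2] at v1
      rw [h1] at v2
      rw [h3] at v3
      rcases perm3 hb gp hh no3 nab nac nbc hT hgρ egρ with k1 | ⟨k1, -, -⟩ | ⟨k1, -, -⟩ |
        ⟨k1, -, -⟩
      · rw [k1] at v1
        exact nab v1
      · exact nab (k1.symm.trans v1)
      · exact nbc (k1.symm.trans v2)
      · exact nac (v3.symm.trans k1)
  have ma : a ∈ T V h := by rw [hT]; simp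
  have mb : b ∈ T V h := by rw [hT]; simp
  have mc : c ∈ T V h := by rw [hT]; simp
  obtain ⟨V1, H1, w, kk, n, o⟩ := orb_of ho gp hh h3
  have cn := o.cn
  rw [card_two hρ eρ nρ two] at cn
  -- the facet opposite to `b` is free
  have fb : Free G (kk b) := by
    intro g hg e
    obtain ⟨-, h1, h2⟩ := o.key gp.2.1 mb mb hg e
    rcases two g hg h1 with h4 | h4
    · exact h4
    · exfalso
      rw [h4] at h2
      have h5 : b ∈ (T V h).erase b := by
        rw [← h2, Finset.mem_image]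
        exact ⟨c, Finset.mem_erase.2 ⟨nbc.symm, mc⟩, rc⟩
      exact (Finset.mem_erase.1 h5).1 rfl
  have hρa : ρ (kk a) = kk a := by
    apply (hb V1 H1 o.gp.1).2.2.2.2.1 (kk a) (o.k a ma).1
    intro v hv
    have hw : ρ w = w := (o.stab ρ hρ).2 eρ
    obtain ⟨v', hv', e⟩ : ∃ v' ∈ T V1 (kk a), ρ v' = v := by
      rw [(o.k a ma).2.2] at hv ⊢
      rcases Finset.mem_insert.1 hv with rfl | hv
      · exact ⟨v, Finset.mem_insert_self _ _, hw⟩
      · obtain ⟨h1, h2⟩ := Finset.mem_erase.1 hv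
        rw [hT] at h2
        simp only [Finset.mem_insert, Finset.mem_singleton] at h2
        rcases h2 with h2 | h2 | h2
        · exact absurd h2 h1
        · exact ⟨c, Finset.mem_insert_of_mem (Finset.mem_erase.2 ⟨nac.symm, mc⟩), by rw [rc, h2]⟩
        · exact ⟨b, Finset.mem_insert_of_mem (Finset.mem_erase.2 ⟨nab.symm, mb⟩), by rw [rb, h2]⟩
    rw [← e, inner_g]
    exact (mem_T.1 hv').2
  have two' : ∀ g ∈ G, g (kk a) = kk a → g = 1 ∨ g = ρ := fun g hg e =>
    two g hg (o.key gp.2.1 ma ma hg e).2.1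
  obtain ⟨V2, H2, w', kk', n', o'⟩ := orb_of ho o.gp (o.k a ma).1 (o.card_k h3 ma)
  have cn' := o'.cn
  rw [card_two hρ hρa nρ two'] at cn'
  have hk := o'.keep (kk b) (o.k b mb).1 (by
    intro g hg e
    obtain ⟨-, h1, h2⟩ := o.key gp.2.1 ma mb hg e
    have h5 : b ∈ (T V h).erase b := by
      rw [← h2, Finset.mem_image]
      rcases two g hg h1 with rfl | rfl
      · exact ⟨b, Finset.mem_erase.2 ⟨nab.symm, mb⟩, rfl⟩
      · exact ⟨c, Finset.mem_erase.2 ⟨nac.symm, mc⟩, rc⟩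
    exact (Finset.mem_erase.1 h5).1 rfl)
  refine ⟨1, V2, H2, o'.gp, ?_, ?_, kk b, hk.1, ?_, fb⟩
  · rw [o'.cV, o.cV]
    omega
  · rw [o'.cH, o.cH]
    omega
  · rw [hk.2]
    exact o.card_k h3 mb

theorem s_RND (ho : S_ORB) (hb : S_BAS) : S_RND := by
  intro G _ V H gp h hh h3 q hq
  obtain ⟨V1, H1, w, kk, n, o⟩ := orb_of ho gp hh h3
  have cn := o.cn
  rw [hq] at cn
  have gp1 := gp_symm o.gp
  obtain ⟨H2, V2, h1, kk', n', o'⟩ := orb_of ho gp1 o.wmem o.Tw3
  have same : ∀ {x y : E3}, (∀ g ∈ G, g x = x ↔ g y = y) →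
      Nat.card {g : G // (g : E3 ≃ₗᵢ[ℝ] E3) x = x} =
        Nat.card {g : G // (g : E3 ≃ₗᵢ[ℝ] E3) y = y} := by
    intro x y hxy
    exact Nat.card_congr (Equiv.subtypeEquivRight fun g => hxy g g.2)
  have cn' := o'.cn
  rw [same o.stab, hq] at cn'
  have hN : 0 < Nat.card G := Nat.card_pos
  have hq0 : 0 < q := by
    rcases Nat.eq_zero_or_pos q with h0 | h0
    · rw [h0, mul_zero] at cn
      omega
    · exact h0
  have hnn : n = n' := by
    have : n * q = n' * q := by rw [cn, cn']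
    exact Nat.eq_of_mul_eq_mul_right hq0 this
  have gp2 := gp_symm o'.gp
  obtain ⟨y, hy⟩ : (T H1 w).Nonempty := by
    rw [← Finset.card_pos, o.Tw3]
    norm_num
  refine ⟨V2, H2, n, gp2, cn, ?_, ?_, ⟨h1, o'.wmem, o'.Tw3, ?_⟩, ⟨kk' y, (o'.k y hy).1,
    o'.card_k o.Tw3 hy, ?_⟩⟩
  · rw [o'.cH, o.cV]
    omega
  · rw [o'.cV, o.cH]
    omega
  · rw [same o'.stab, same o.stab, hq]
  · intro g hg e e3
    obtain ⟨k1, k2, k3⟩ := o'.key gp1.2.1 hy hy hg e
    apply fix_one hb gp2.1.symm (h := kk' y) (o'.k y hy).1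
    obtain ⟨a, b, nab, hab⟩ : ∃ a b, a ≠ b ∧ (T H1 w).erase y = {a, b} := by
      apply Finset.card_eq_two.1
      rw [Finset.card_erase_of_mem hy, o.Tw3]
    rw [hab, Finset.image_insert, Finset.image_singleton] at k3
    have ha : g a = a := by
      have h1 : g a ∈ ({a, b} : Finset E3) := k3 ▸ Finset.mem_insert_self _ _
      simp only [Finset.mem_insert, Finset.mem_singleton] at h1
      rcases h1 with h1 | h1
      · exact h1
      · exfalso
        have h2 : g b ∈ ({a, b} : Finset E3) := by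
          rw [← k3]
          simp
        simp only [Finset.mem_insert, Finset.mem_singleton] at h2
        rcases h2 with h2 | h2
        · have h5 : (g ^ 3) a = b := by rw [pow3, h1, h2, h1]
          rw [e3] at h5
          exact nab h5
        · exact nab (g.injective (h1.trans h2.symm))
    have hb' : g b = b := by
      have h2 : g b ∈ ({a, b} : Finset E3) := by
        rw [← k3]
        simp
      simp only [Finset.mem_insert, Finset.mem_singleton] at h2
      rcases h2 with h2 | h2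
      · exact absurd (g.injective (ha.trans h2.symm)) nab
      · exact h2
    intro v hv
    rw [(o'.k y hy).2.2, hab] at hv
    simp only [Finset.mem_insert, Finset.mem_singleton] at hv
    rcases hv with rfl | rfl | rfl
    · exact k1
    · exact ha
    · exact hb'

end Pool.Agent.L7h36.SY
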